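import Pool.Agent.Work.MP_10b086_an.H5.Defs2

/-!
# Part D: the algebra of the tower.  Part E: the module.  Part H: cardinalities.  Part G: the end.
-/

open Topology Filter Set
open scoped ENNReal ComplexConjugate

set_option autoImplicit false

namespace Pool.Agent.H5

/-! ## Part D -/

/-- D0: multiplication by a variable is isometric on `L1 V` -/
def S_D0 : Prop := ∀ (V : Type) (j : V) (f : L1 V), ‖L1.X j * f‖ = ‖f‖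

/-- D1: normal forms of monomials -/
def S_D1 : Prop := ∀ (Ω V : Type) [LinearOrder Ω] [WellFoundedLT Ω] (T : Twr Ω V),
  ∃ nf : (V →₀ ℕ) → L1 V, (∀ μ, ‖nf μ‖ ≤ 1) ∧
    (∀ j, T.rt j → ∀ μ, nf (μ + Finsupp.single j 2) = ∑' ν, (T.v j).cf ν • nf (μ + ν)) ∧
    (∀ j, ¬ T.rt j → ∀ μ, nf (μ + Finsupp.single j 1) = L1.X j * nf μ) ∧
    ∀ μ, L1.mon μ 1 - nf μ ∈ T.J

/-- D2: the normal form -/
def S_D2 : Prop := ∀ (Ω V : Type) [LinearOrder Ω] [WellFoundedLT Ω] (T : Twr Ω V),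
  ∃ NF : L1 V →L[ℂ] L1 V, (∀ f, ‖NF f‖ ≤ ‖f‖) ∧ (∀ f, f - NF f ∈ T.J) ∧
    (∀ f ∈ T.J, NF f = 0) ∧ ∀ j, ¬ T.rt j → ∀ f, NF (L1.X j * f) = L1.X j * NF f

/-- D3: letters are isometric in `T.B`, norms are attained, `T.B` has a unit of norm one -/
def S_D3 : Prop := ∀ (Ω V : Type) [LinearOrder Ω] [WellFoundedLT Ω] (T : Twr Ω V),
  (∀ j, ¬ T.rt j → ∀ t : T.B, ‖T.qt (L1.X j) * t‖ = ‖t‖) ∧
  (∀ t : T.B, ∃ p, T.qt p = t ∧ ‖p‖ = ‖t‖) ∧ (∀ p, ‖T.qt p‖ ≤ ‖p‖) ∧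
  (T.pts.Nonempty → ‖(1 : T.B)‖ = 1) ∧ (∀ x hx t, ‖T.chi x hx t‖ ≤ ‖t‖)

/-- D4: the retraction -/
def S_D4 : Prop := ∀ (Ω V : Type) [LinearOrder Ω] [WellFoundedLT Ω] (T : Twr Ω V),
  T.RootClosed → ∀ (e x : Dk V) (he : e ∈ T.pts) (hx : x ∈ T.pts) (g : Ω), x ∈ T.Y e g →
  ∃ ρ : T.B →ₐ[ℂ] T.B, (∀ t, ‖ρ t‖ ≤ ‖t‖) ∧ (∀ t ∈ T.Bl g, ρ t = t) ∧
    (∀ j, ¬ T.rt j → g ≤ T.lev j → ρ (T.qt (L1.X j)) = algebraMap ℂ T.B (x.1 j)) ∧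
    ∀ t, T.chi e he (ρ t) = T.chi x hx t

/-- D5: every element of the kernel of a character is the square of such an element -/
def S_D5 : Prop := ∀ (Ω V : Type) [LinearOrder Ω] [WellFoundedLT Ω] (T : Twr Ω V),
  T.RootClosed → ∀ (e : Dk V) (he : e ∈ T.pts) (t : T.B), T.chi e he t = 0 →
  ∃ u, T.chi e he u = 0 ∧ u * u = t

/-- D6: the symmetric base point -/
def S_D6 : Prop := ∀ (Λ : Type) [LinearOrder Λ] [WellFoundedLT Λ] (v0 : Λ → L1 (Vr Λ))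
  (h1 : ∀ a, ‖v0 a‖ ≤ 1) (h2 : ∀ a, Low lvl (lvl (Vr.lett a)) (v0 a)),
  ∃ e : Dk (Vr Λ), e ∈ (tw v0 h1 h2).pts ∧ (∀ j, ¬ isRt j → e.1 j = 0) ∧
    ∀ j, e.1 (swp j) = conj (e.1 j)

/-- D7: the involution of the algebra -/
def S_D7 : Prop := ∀ (Λ : Type) [LinearOrder Λ] [WellFoundedLT Λ] (v0 : Λ → L1 (Vr Λ))
  (h1 : ∀ a, ‖v0 a‖ ≤ 1) (h2 : ∀ a, Low lvl (lvl (Vr.lett a)) (v0 a)),
  ∃ σ : (tw v0 h1 h2).B → (tw v0 h1 h2).B, (∀ s t, σ (s + t) = σ s + σ t) ∧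
    (∀ s t, σ (s * t) = σ s * σ t) ∧ (∀ (c : ℂ) t, σ (c • t) = conj c • σ t) ∧
    (∀ t, σ (σ t) = t) ∧ (∀ t, ‖σ t‖ = ‖t‖) ∧
    (∀ p, σ ((tw v0 h1 h2).qt p) = (tw v0 h1 h2).qt (sg p)) ∧
    (∀ (e : Dk (Vr Λ)) (he : e ∈ (tw v0 h1 h2).pts), (∀ j, e.1 (swp j) = conj (e.1 j)) →
      ∀ t, (tw v0 h1 h2).chi e he (σ t) = conj ((tw v0 h1 h2).chi e he t))

/-! ## Part E -/

/-- E0: the elements of `K D` -/
def S_E0 : Prop := ∀ (Λ B : Type) [LinearOrder Λ] [NormedCommRing B] [NormOneClass B]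
  [NormedAlgebra ℂ B] [CompleteSpace B] (M : MD Λ B) (D : Set Λ) (u : Fm Λ B), u ∈ M.K D ↔
  ∃ t : lp (fun _ : Λ => B) 1, (∀ a ∉ D, t a = 0) ∧
    HasSum (fun a => t a • (M.y a • (gen a : Fm Λ B) - M.s a)) u

/-- E1: the beginning -/
def S_E1 : Prop := ∀ (Λ B : Type) [LinearOrder Λ] [NormedCommRing B] [NormOneClass B]
  [NormedAlgebra ℂ B] [CompleteSpace B] (M : MD Λ B), M.RN0 → M.m ∉ M.RFK ∅

/-- E2: the successor step -/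
def S_E2 : Prop := ∀ (Λ B : Type) [LinearOrder Λ] [NormedCommRing B] [NormOneClass B]
  [NormedAlgebra ℂ B] [CompleteSpace B] (M : MD Λ B) (D : Set Λ) (a : Λ),
  (∀ c : ℂ, M.m - c • M.s a ∉ M.RFK D) → M.m ∉ M.RFK (insert a D)

/-- E3: the map `Θ` -/
def S_E3 : Prop := ∀ (Λ B : Type) [LinearOrder Λ] [WellFoundedLT Λ] [NormedCommRing B]
  [NormOneClass B] [NormedAlgebra ℂ B] [CompleteSpace B] (M : MD Λ B) (g : Λ)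
  (ρ : B →ₐ[ℂ] B) (x : Λ → ℂ) (A : Set Λ), (∀ t, ‖ρ t‖ ≤ ‖t‖) → (∀ t ∈ M.Bl g, ρ t = t) →
  (∀ n, ρ (M.z n) = M.z n) → (∀ a, a < g → ρ (M.y a) = M.y a) →
  (∀ a, g ≤ a → ρ (M.y a) = algebraMap ℂ B (x a)) → (∀ a, ‖x a‖ ≤ 1) →
  (∀ a ∈ A, g ≤ a) → (∀ a ∈ A, x a ≠ 0) → {a | a ∈ A ∧ ‖x a‖ < 1}.Finite →
  ∃ Θ : Fm Λ B →+ Fm Λ B, Continuous Θ ∧ (∀ (b : B) (u : Fm Λ B), Θ (b • u) = ρ b • Θ u) ∧
    Θ M.m = M.m ∧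
    (∀ a, a < g → Θ (M.y a • (gen a : Fm Λ B) - M.s a) = M.y a • (gen a : Fm Λ B) - M.s a) ∧
    ∀ a ∈ A, Θ (M.y a • (gen a : Fm Λ B) - M.s a) = 0

/-- E4: the limit step -/
def S_E4 : Prop := ∀ (Λ B : Type) [LinearOrder Λ] [WellFoundedLT Λ] [NormedCommRing B]
  [NormOneClass B] [NormedAlgebra ℂ B] [CompleteSpace B] (M : MD Λ B), M.RN1 →
  ∀ lam : WithTop Λ, (∃ g : Λ, (g : WithTop Λ) < lam) →
  (∀ g : Λ, (g : WithTop Λ) < lam → ∃ g' : Λ, g < g' ∧ (g' : WithTop Λ) < lam) →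
  ∀ D : Set Λ, (∀ a ∈ D, (a : WithTop Λ) < lam) → M.m ∈ M.RFK D →
  ∃ g : Λ, (g : WithTop Λ) < lam ∧ M.m ∈ M.RFK (D ∩ {a | a < g})

/-- E5: conclusion -/
def S_E5 : Prop := ∀ (Λ B : Type) [LinearOrder Λ] [WellFoundedLT Λ] [NormedCommRing B]
  [NormOneClass B] [NormedAlgebra ℂ B] [CompleteSpace B] (M : MD Λ B), M.RN0 → M.RN1 →
  ∃ D : Set Λ, M.m ∉ M.RFK D ∧ ∀ a, ∃ c : ℂ, M.s a - c • M.m ∈ M.RFK D

/-- E6: `m` is in the closure of `R F` -/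
def S_E6 : Prop := ∀ (Λ B : Type) [LinearOrder Λ] [NormedCommRing B] [NormOneClass B]
  [NormedAlgebra ℂ B] [CompleteSpace B] (M : MD Λ B),
  M.m ∈ closure ((M.RF : Submodule B (Fm Λ B)) : Set (Fm Λ B))

/-! ## Part H -/

/-- H1: bookkeeping -/
def S_H1 : Prop := ∀ (Z : Type) (sup : Z → Set Lam), Cardinal.mk Z ≤ Cardinal.continuum →
  (∀ z, (sup z).Countable) → (∃ z, sup z = ∅) →
  ∃ f : Lam → Z, (∀ a, sup (f a) ⊆ Iio a) ∧ Function.Surjective f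

/-- H2: cardinality of `ℓ¹` spaces -/
def S_H2 : Prop := ∀ (ι B : Type) [NormedAddCommGroup B], Cardinal.mk ι ≤ Cardinal.continuum →
  Cardinal.mk B ≤ Cardinal.continuum →
  Cardinal.mk (lp (fun _ : ι => B) 1) ≤ Cardinal.continuum

/-- H3: cardinality of the algebra of power series -/
def S_H3 : Prop := Cardinal.mk (L1 (Vr Lam)) ≤ Cardinal.continuum

/-- H4: a root closed symmetric tower exists -/
def S_H4 : Prop := ∃ (v0 : Lam → L1 (Vr Lam)) (h1 : ∀ a, ‖v0 a‖ ≤ 1)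
  (h2 : ∀ a, Low lvl (lvl (Vr.lett a)) (v0 a)), (tw v0 h1 h2).RootClosed

/-- H5: the enumeration of the real elements of norm `≤ 1/2` of the free module -/
def S_H5 : Prop := ∀ (v0 : Lam → L1 (Vr Lam)) (h1 : ∀ a, ‖v0 a‖ ≤ 1)
  (h2 : ∀ a, Low lvl (lvl (Vr.lett a)) (v0 a)) (Z : Set (Fm Lam (tw v0 h1 h2).B)),
  (0 : Fm Lam (tw v0 h1 h2).B) ∈ Z →
  ∃ s : Lam → Fm Lam (tw v0 h1 h2).B, (∀ a, s a ∈ Z) ∧ (∀ u ∈ Z, ∃ a, s a = u) ∧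
    (∀ a i, s a i ∈ (tw v0 h1 h2).Bl (lvl (Vr.lett a))) ∧
    ∀ a b, a ≤ b → s a (Sum.inr b) = 0

/-- X1: the conditions `RN0` and `RN1` hold in our tower -/
def S_X1 : Prop := ∀ (Λ : Type) [LinearOrder Λ] [WellFoundedLT Λ] (v0 : Λ → L1 (Vr Λ))
  (h1 : ∀ a, ‖v0 a‖ ≤ 1) (h2 : ∀ a, Low lvl (lvl (Vr.lett a)) (v0 a)),
  (tw v0 h1 h2).RootClosed → ∀ (e : Dk (Vr Λ)) (he : e ∈ (tw v0 h1 h2).pts),
  (∀ j, ¬ isRt j → e.1 j = 0) → ∀ M : MD Λ (tw v0 h1 h2).B, M.ε = (tw v0 h1 h2).chi e he →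
  (∀ n, M.z n = (tw v0 h1 h2).qt (L1.X (Vr.base n))) →
  (∀ a, M.y a = (tw v0 h1 h2).qt (L1.X (Vr.lett a))) →
  (∀ a, M.Bl a = (tw v0 h1 h2).Bl (lvl (Vr.lett a))) → M.RN0 ∧ M.RN1

/-! ## Part G -/

open Pool.Agent.Work.MP_10b086_an in
/-- G1: from `N` to the answer -/
def S_G1 : Prop := ∀ (N : Type) [NonUnitalNormedCommRing N] [NormedSpace ℂ N]
  [IsScalarTower ℂ N N] [SMulCommClass ℂ N N] [CompleteSpace N] [StarRing N] [StarModule ℂ N]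
  [ContinuousStar N] (m : N), star m = m → m ∉ Sq N → (∀ n : N, ∃ c : ℂ, n - c • m ∈ Sq N) →
  m ∈ closure ((Sq N : Submodule ℂ N) : Set N) → Final

/-- G2: from `(B, W)` to the answer -/
def S_G2 : Prop := ∀ (B W : Type) [NormedCommRing B] [NormOneClass B] [NormedAlgebra ℂ B]
  [CompleteSpace B] [NormedAddCommGroup W] [NormedSpace ℂ W] [CompleteSpace W] [Module B W]
  [IsBoundedSMul B W] [IsScalarTower ℂ B W] (ε : B →ₐ[ℂ] ℂ) (_ : ∀ t, ‖ε t‖ ≤ ‖t‖)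
  (σ : B → B) (_ : ∀ s t, σ (s + t) = σ s + σ t) (_ : ∀ s t, σ (s * t) = σ s * σ t)
  (_ : ∀ (c : ℂ) t, σ (c • t) = conj c • σ t) (_ : ∀ t, σ (σ t) = t) (_ : ∀ t, ‖σ t‖ = ‖t‖)
  (_ : ∀ t, ε (σ t) = conj (ε t))
  (τ : W → W) (_ : ∀ s t, τ (s + t) = τ s + τ t) (_ : ∀ (b : B) w, τ (b • w) = σ b • τ w)
  (_ : ∀ w, τ (τ w) = w) (_ : ∀ w, ‖τ w‖ ≤ ‖w‖) (m : W) (_ : τ m = m)
  (_ : ∀ t, ε t = 0 → ∃ u, ε u = 0 ∧ u * u = t)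
  (_ : m ∉ (RingHom.ker ε) • (⊤ : Submodule B W))
  (_ : ∀ w : W, ∃ c : ℂ, w - c • m ∈ (RingHom.ker ε) • (⊤ : Submodule B W))
  (_ : m ∈ closure (((RingHom.ker ε) • (⊤ : Submodule B W) : Submodule B W) : Set W)), Final

/-- G3: from the module data to the answer -/
def S_G3 : Prop := ∀ (Λ B : Type) [LinearOrder Λ] [NormedCommRing B] [NormOneClass B]
  [NormedAlgebra ℂ B] [CompleteSpace B] (M : MD Λ B)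
  (σ : B → B) (_ : ∀ s t, σ (s + t) = σ s + σ t) (_ : ∀ s t, σ (s * t) = σ s * σ t)
  (_ : ∀ (c : ℂ) t, σ (c • t) = conj c • σ t) (_ : ∀ t, σ (σ t) = t) (_ : ∀ t, ‖σ t‖ = ‖t‖)
  (_ : ∀ t, M.ε (σ t) = conj (M.ε t)) (_ : ∀ n, σ (M.z n) = M.z n)
  (_ : ∀ a, σ (M.y a) = M.y a) (_ : ∀ a i, σ (M.s a i) = M.s a i)
  (_ : ∀ u : Fm Λ B, (∀ i, σ (u i) = u i) → ‖u‖ ≤ 1 / 2 → ∃ a, M.s a = u)
  (_ : ∀ t, M.ε t = 0 → ∃ u, M.ε u = 0 ∧ u * u = t)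
  (D : Set Λ) (_ : M.m ∉ M.RFK D) (_ : ∀ a, ∃ c : ℂ, M.s a - c • M.m ∈ M.RFK D), Final

end Pool.Agent.H5
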