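import Pool.Agent.Work.MP_10b086_an.H5.L1

/-!
# Definitions for the answer to (H5)
-/

open Topology Filter Set
open scoped ENNReal

set_option autoImplicit false
set_option linter.unusedSectionVars false

namespace Pool.Agent.H5

noncomputable section

/-! ## sets with a local maximum principle -/

/-- `LG P z b M L'`: the closed set `M` has the local maximum principle of order `b` with respect
to the algebra `P` and the letters in `L'`. -/
def LG {E L : Type} [TopologicalSpace E] (P : Set C(E, ℂ)) (z : L → C(E, ℂ)) (b : ℕ)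
    (M : Set E) (L' : Set L) : Prop :=
  ∀ x ∈ M, ∀ O : Set E, IsOpen O → x ∈ O → ∀ (q : ℕ) (f : Fin q → C(E, ℂ)), (∀ k, f k ∈ P) →
    ∀ h ∈ P, ∃ x' ∈ M, x' ∈ closure O ∧ (∀ k, f k x' = f k x) ∧ ‖h x‖ ≤ ‖h x'‖ ∧
      (x' ∉ O ∨ {a | a ∈ L' ∧ ‖z a x'‖ < 1}.encard < ((b + q : ℕ) : ℕ∞))

/-- a set of functions containing `1` and closed under products -/
def MulClosed {E : Type} [TopologicalSpace E] (P : Set C(E, ℂ)) : Prop :=
  1 ∈ P ∧ ∀ f ∈ P, ∀ g ∈ P, f * g ∈ P

/-! ## the polydisc -/

/-- the closed polydisc -/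
def Dk (V : Type) : Type := {x : V → ℂ // ∀ j, ‖x j‖ ≤ 1}

variable {V : Type}

instance : TopologicalSpace (Dk V) := inferInstanceAs (TopologicalSpace {x : V → ℂ // ∀ j, ‖x j‖ ≤ 1})
instance : T2Space (Dk V) := inferInstanceAs (T2Space {x : V → ℂ // ∀ j, ‖x j‖ ≤ 1})
instance : CompactSpace (Dk V) := by
  have h : {x : V → ℂ | ∀ j, ‖x j‖ ≤ 1} = Set.pi Set.univ fun _ : V => Metric.closedBall (0 : ℂ) 1 := by
    ext x; simp [Set.mem_pi]
  have h2 : IsCompact {x : V → ℂ | ∀ j, ‖x j‖ ≤ 1} := by
    rw [h]; exact isCompact_univ_pi fun _ => isCompact_closedBall _ _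
  exact isCompact_iff_compactSpace.mp h2

theorem Dk.continuous_coord (j : V) : Continuous fun x : Dk V => x.1 j :=
  (continuous_apply j).comp continuous_subtype_val

theorem continuous_monVal_Dk (μ : V →₀ ℕ) : Continuous fun x : Dk V => monVal x.1 μ := by
  unfold monVal Finsupp.prod
  exact continuous_finsetProd _ fun j _ => (Dk.continuous_coord j).pow _

/-- a power series as a continuous function on the polydisc -/
def ev (f : L1 V) : C(Dk V, ℂ) where
  toFun := fun x => evl x.1 f
  continuous_toFun := by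
    unfold evl
    refine continuous_tsum (u := fun μ => ‖f.cf μ‖)
      (fun μ => ((continuous_monVal_Dk μ).const_smul (f.cf μ))) f.summable ?_
    intro μ x
    rw [norm_smul]
    exact mul_le_of_le_one_right (norm_nonneg _) (norm_monVal_le x.2 μ)

theorem ev_apply (f : L1 V) (x : Dk V) : ev f x = evl x.1 f := rfl

/-- the functions on the polydisc given by power series -/
def PP (V : Type) : Set C(Dk V, ℂ) := Set.range ev

/-- the coordinate functions -/
def zc (j : V) : C(Dk V, ℂ) := ev (L1.X j)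

theorem zc_apply (j : V) (x : Dk V) : zc j x = x.1 j := by
  show evl x.1 (L1.X j) = x.1 j
  exact evl_X _ _

/-! ## towers -/

/-- all variables occurring in `f` have level `< g` -/
def Low {Ω : Type} [LinearOrder Ω] (lev : V → Ω) (g : Ω) (f : L1 V) : Prop :=
  ∀ μ, f.cf μ ≠ 0 → ∀ i ∈ μ.support, lev i < g

/-- A tower: the variables are either letters or roots; a root `j` comes with a power series
`v j` of norm at most one in variables of lower level, and the equation is `x_j ^ 2 = v j (x)`. -/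
structure Twr (Ω V : Type) [LinearOrder Ω] where
  /-- the level -/
  lev : V → Ω
  /-- the roots -/
  rt : V → Prop
  /-- the power series -/
  v : V → L1 V
  norm_v : ∀ j, ‖v j‖ ≤ 1
  low_v : ∀ j, rt j → Low lev (lev j) (v j)

variable {Ω : Type} [LinearOrder Ω]

/-- the points of the tower -/
def Twr.pts (T : Twr Ω V) : Set (Dk V) := {x | ∀ j, T.rt j → x.1 j ^ 2 = ev (T.v j) x}

/-- the letters -/
def Twr.letters (T : Twr Ω V) : Set V := {j | ¬ T.rt j}

/-- points whose letters of level `< g` and of level `≥ lam` vanish -/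
def Twr.Q (T : Twr Ω V) (g lam : Ω) : Set (Dk V) :=
  {x | x ∈ T.pts ∧ ∀ j, ¬ T.rt j → (T.lev j < g ∨ lam ≤ T.lev j) → x.1 j = 0}

/-- points which agree with `e` at all levels `< g` -/
def Twr.Y (T : Twr Ω V) (e : Dk V) (g : Ω) : Set (Dk V) :=
  {x | ∀ j, T.lev j < g → x.1 j = e.1 j}

/-- the letters with level in `[g, lam)` -/
def Twr.Lt (T : Twr Ω V) (g lam : Ω) : Set V := {j | ¬ T.rt j ∧ g ≤ T.lev j ∧ T.lev j < lam}

/-- the ideal of the relations -/
def Twr.J (T : Twr Ω V) : Ideal (L1 V) :=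
  (Ideal.span {f | ∃ j, T.rt j ∧ f = L1.X j ^ 2 - T.v j}).closure

instance (T : Twr Ω V) : IsClosed (T.J : Set (L1 V)) := by
  unfold Twr.J
  rw [Ideal.coe_closure]
  exact isClosed_closure

/-- the algebra of the tower -/
abbrev Twr.B (T : Twr Ω V) : Type := L1 V ⧸ T.J

/-- the quotient map -/
def Twr.qt (T : Twr Ω V) : L1 V →ₐ[ℂ] T.B := Ideal.Quotient.mkₐ ℂ T.J

example (T : Twr Ω V) : NormedCommRing T.B := inferInstance
example (T : Twr Ω V) : NormedAlgebra ℂ T.B := inferInstance
example (T : Twr Ω V) : CompleteSpace T.B := inferInstance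

/-- every power series of norm at most one occurs -/
def Twr.RootClosed (T : Twr Ω V) : Prop := ∀ p : L1 V, ‖p‖ ≤ 1 → ∃ j, T.rt j ∧ T.v j = p

end

end Pool.Agent.H5
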