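import Pool.Agent.Work.MP_10b086_an.H5.Defs
import Pool.Agent.Work.MP_10b086_an.Trace

/-!
# Definitions for the answer to (H5), second part: characters, symmetric tower, module data
-/

open Topology Filter Set
open scoped ENNReal ComplexConjugate

set_option autoImplicit false
set_option linter.unusedSectionVars false

namespace Pool.Agent.H5

noncomputable section

variable {V Ω : Type} [LinearOrder Ω]

/-! ## characters of the algebra of a tower -/

theorem Twr.J_le_ker (T : Twr Ω V) (x : Dk V) (hx : x ∈ T.pts) :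
    ∀ f : L1 V, f ∈ T.J → lift x.1 x.2 f = 0 := by
  intro f hf
  have h1 : (T.J : Set (L1 V)) ⊆ closure ((Ideal.span {f | ∃ j, T.rt j ∧
      f = L1.X j ^ 2 - T.v j} : Ideal (L1 V)) : Set (L1 V)) := by
    rw [Twr.J, Ideal.coe_closure]
  have hcont : Continuous fun f : L1 V => lift x.1 x.2 f := by
    refine AddMonoidHomClass.continuous_of_bound (lift x.1 x.2) 1 (fun f => ?_)
    rw [one_mul]
    exact norm_evl_le x.2 f
  have h2 : ∀ f ∈ (Ideal.span {f | ∃ j, T.rt j ∧ f = L1.X j ^ 2 - T.v j} : Ideal (L1 V)),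
      lift x.1 x.2 f = 0 := by
    intro f hf
    have h3 : (Ideal.span {f | ∃ j, T.rt j ∧ f = L1.X j ^ 2 - T.v j} : Ideal (L1 V)) ≤
        RingHom.ker (lift x.1 x.2) := by
      rw [Ideal.span_le]
      rintro _ ⟨j, hj, rfl⟩
      show lift x.1 x.2 (L1.X j ^ 2 - T.v j) = 0
      rw [map_sub, map_pow, lift_apply, lift_apply, evl_X, hx j hj, ev_apply, sub_self]
    exact h3 hf
  have h4 : closure ((Ideal.span {f | ∃ j, T.rt j ∧ f = L1.X j ^ 2 - T.v j} : Ideal (L1 V)) :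
      Set (L1 V)) ⊆ {f | lift x.1 x.2 f = 0} :=
    closure_minimal h2 (isClosed_eq hcont continuous_const)
  exact h4 (h1 hf)

/-- the character of `T.B` given by a point of the tower -/
def Twr.chi (T : Twr Ω V) (x : Dk V) (hx : x ∈ T.pts) : T.B →ₐ[ℂ] ℂ :=
  Ideal.Quotient.liftₐ T.J (lift x.1 x.2) (T.J_le_ker x hx)

theorem Twr.chi_qt (T : Twr Ω V) (x : Dk V) (hx : x ∈ T.pts) (p : L1 V) :
    T.chi x hx (T.qt p) = ev p x := rfl

/-- the elements of `T.B` which come from levels `< g` -/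
def Twr.Bl (T : Twr Ω V) (g : Ω) : Set T.B := {t | ∃ p, Low T.lev g p ∧ T.qt p = t}

/-! ## the variables of our tower -/

/-- base letters, one letter and two roots for every `a : Λ` -/
inductive Vr (Λ : Type) : Type
  | base (n : ℕ) : Vr Λ
  | lett (a : Λ) : Vr Λ
  | root (a : Λ) (b : Bool) : Vr Λ

variable {Λ : Type}

/-- the level -/
def lvl : Vr Λ → WithBot (WithTop Λ)
  | Vr.base _ => ⊥
  | Vr.lett a => ((a : WithTop Λ) : WithBot (WithTop Λ))
  | Vr.root a _ => ((a : WithTop Λ) : WithBot (WithTop Λ))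

/-- being a root -/
def isRt : Vr Λ → Prop
  | Vr.base _ => False
  | Vr.lett _ => False
  | Vr.root _ _ => True

/-- exchange of the two roots -/
def swpFun : Vr Λ → Vr Λ
  | Vr.base n => Vr.base n
  | Vr.lett a => Vr.lett a
  | Vr.root a b => Vr.root a (!b)

theorem swpFun_swpFun (j : Vr Λ) : swpFun (swpFun j) = j := by
  cases j <;> simp [swpFun]

/-- exchange of the two roots -/
def swp : Equiv.Perm (Vr Λ) := ⟨swpFun, swpFun, swpFun_swpFun, swpFun_swpFun⟩

theorem lvl_swp (j : Vr Λ) : lvl (swp j) = lvl j := by cases j <;> rfl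

/-- the conjugation of the algebra of power series: complex conjugation of the coefficients and
exchange of the two roots of every level -/
def sg (f : L1 (Vr Λ)) : L1 (Vr Λ) :=
  L1.mk' (fun μ => conj (f.cf (Finsupp.equivMapDomain swp μ))) (by
    have h := f.summable
    have h2 := (Equiv.summable_iff (Finsupp.equivCongrLeft (M := ℕ) (swp (Λ := Λ)))).mpr h
    refine h2.congr (fun μ => ?_)
    simp [Finsupp.equivCongrLeft])

theorem sg_cf (f : L1 (Vr Λ)) (μ : Vr Λ →₀ ℕ) :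
    (sg f).cf μ = conj (f.cf (Finsupp.equivMapDomain swp μ)) := rfl

variable [LinearOrder Λ]

theorem sg_low {f : L1 (Vr Λ)} {g : WithBot (WithTop Λ)} (h : Low lvl g f) :
    Low lvl g (sg f) := by
  intro μ hμ i hi
  rw [sg_cf] at hμ
  have h1 : f.cf (Finsupp.equivMapDomain swp μ) ≠ 0 := by
    intro h0; apply hμ; rw [h0, map_zero]
  have h2 : swp i ∈ (Finsupp.equivMapDomain swp μ).support := by
    rw [Finsupp.mem_support_iff, Finsupp.equivMapDomain_apply, Equiv.symm_apply_apply]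
    exact Finsupp.mem_support_iff.mp hi
  have := h _ h1 _ h2
  rwa [lvl_swp] at this

theorem norm_sg (f : L1 (Vr Λ)) : ‖sg f‖ = ‖f‖ := by
  rw [L1.norm_def, L1.norm_def]
  rw [← Equiv.tsum_eq (Finsupp.equivCongrLeft (M := ℕ) (swp (Λ := Λ))) (fun μ => ‖f.cf μ‖)]
  refine tsum_congr (fun μ => ?_)
  rw [sg_cf]
  simp [Finsupp.equivCongrLeft]

/-- the symmetric tower defined by power series `v0 a` -/
def tw (v0 : Λ → L1 (Vr Λ)) (h1 : ∀ a, ‖v0 a‖ ≤ 1)
    (h2 : ∀ a, Low lvl (lvl (Vr.lett a)) (v0 a)) : Twr (WithBot (WithTop Λ)) (Vr Λ) where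
  lev := lvl
  rt := isRt
  v := fun j => match j with
    | Vr.base _ => 0
    | Vr.lett _ => 0
    | Vr.root a false => v0 a
    | Vr.root a true => sg (v0 a)
  norm_v := by
    rintro (n | a | ⟨a, b⟩)
    · show ‖(0 : L1 (Vr Λ))‖ ≤ 1
      rw [norm_zero]; exact zero_le_one
    · show ‖(0 : L1 (Vr Λ))‖ ≤ 1
      rw [norm_zero]; exact zero_le_one
    · cases b
      · exact h1 a
      · show ‖sg (v0 a)‖ ≤ 1
        rw [norm_sg]; exact h1 a
  low_v := by
    rintro (n | a | ⟨a, b⟩) hj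
    · exact absurd hj (fun h => h)
    · exact absurd hj (fun h => h)
    · cases b
      · exact h2 a
      · exact sg_low (h2 a)

/-! ## the module -/

/-- the free module -/
abbrev Fm (Λ B : Type) [NormedCommRing B] : Type := lp (fun _ : ℕ ⊕ Λ => B) 1

/-- the data for the construction of the module -/
structure MD (Λ B : Type) [LinearOrder Λ] [NormedCommRing B] [NormedAlgebra ℂ B] where
  /-- the character -/
  ε : B →ₐ[ℂ] ℂ
  ε_le : ∀ t, ‖ε t‖ ≤ ‖t‖
  /-- the base letters -/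
  z : ℕ → B
  z_le : ∀ n, ‖z n‖ ≤ 1
  z_ε : ∀ n, ε (z n) = 0
  /-- the letters -/
  y : Λ → B
  y_iso : ∀ a t, ‖y a * t‖ = ‖t‖
  y_ε : ∀ a, ε (y a) = 0
  /-- the elements which come from levels `< a` -/
  Bl : Λ → Set B
  Bl_mono : ∀ a b, a ≤ b → Bl a ⊆ Bl b
  /-- the elements of the free module to be divided -/
  s : Λ → Fm Λ B
  s_le : ∀ a, ‖s a‖ ≤ 1 / 2
  s_Bl : ∀ a i, s a i ∈ Bl a
  s_low : ∀ a b, a ≤ b → s a (Sum.inr b) = 0

variable {B : Type} [NormedCommRing B] [NormedAlgebra ℂ B]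

/-- the generators `e_a` -/
def gen (a : Λ) : Fm Λ B := lp.single (E := fun _ : ℕ ⊕ Λ => B) 1 (Sum.inr a) (1 : B)

/-- the generators `w_n` -/
def gw (n : ℕ) : Fm Λ B := lp.single (E := fun _ : ℕ ⊕ Λ => B) 1 (Sum.inl n) (1 : B)

/-- the element `m = Σ 2^(-n) z_n w_n` -/
def MD.m (M : MD Λ B) : Fm Λ B :=
  ⟨fun i => Sum.elim (fun n => ((1 / 2 : ℂ) ^ n) • M.z n) (fun _ => 0) i, by
    show Memℓp _ 1
    rw [memℓp_gen_iff (by norm_num)]
    simp only [ENNReal.toReal_one, Real.rpow_one]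
    have h1 : Summable fun n : ℕ => ‖((1 / 2 : ℂ) ^ n) • M.z n‖ := by
      refine Summable.of_nonneg_of_le (fun _ => norm_nonneg _) (fun n => ?_)
        (summable_geometric_of_lt_one (r := (1 / 2 : ℝ)) (by norm_num) (by norm_num))
      rw [norm_smul, norm_pow]
      have : ‖(1 / 2 : ℂ)‖ = 1 / 2 := by norm_num
      rw [this]
      exact mul_le_of_le_one_right (by positivity) (M.z_le n)
    have h2 := (Function.Injective.summable_iff (Sum.inl_injective (α := ℕ) (β := Λ))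
      (f := fun i : ℕ ⊕ Λ => ‖Sum.elim (fun n => ((1 / 2 : ℂ) ^ n) • M.z n)
        (fun _ => (0 : B)) i‖) (by
        intro i hi
        rcases i with n | a
        · exact absurd ⟨n, rfl⟩ hi
        · simp)).mp (by
          simpa [Function.comp_def] using h1)
    exact h2⟩

/-- the closed submodule of the relations `y_a e_a = s_a`, `a ∈ D` -/
def MD.K (M : MD Λ B) (D : Set Λ) : Submodule B (Fm Λ B) :=
  (Submodule.span B {u | ∃ a ∈ D, u = M.y a • gen a - M.s a}).topologicalClosure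

/-- `R F` -/
def MD.RF (M : MD Λ B) : Submodule B (Fm Λ B) := (RingHom.ker M.ε) • (⊤ : Submodule B (Fm Λ B))

/-- `R F + K_D` -/
def MD.RFK (M : MD Λ B) (D : Set Λ) : Submodule B (Fm Λ B) := M.RF ⊔ M.K D

/-- common zeros of finitely many elements of `R` with some `z_n ≠ 0` -/
def MD.RN0 (M : MD Λ B) : Prop := ∀ (N : ℕ) (r : Fin N → B), (∀ k, M.ε (r k) = 0) →
  ∃ χ : B →ₐ[ℂ] ℂ, (∀ k, χ (r k) = 0) ∧ ∃ n, χ (M.z n) ≠ 0

/-- the retractions -/
def MD.RN1 (M : MD Λ B) : Prop := ∀ lam : WithTop Λ, (∃ g : Λ, (g : WithTop Λ) < lam) →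
  (∀ g : Λ, (g : WithTop Λ) < lam → ∃ g' : Λ, g < g' ∧ (g' : WithTop Λ) < lam) →
  ∀ L₀ : Set Λ, L₀.Countable → ∀ (N : ℕ) (r : Fin N → B), (∀ k, M.ε (r k) = 0) →
  ∃ g : Λ, (g : WithTop Λ) < lam ∧ ∃ (ρ : B →ₐ[ℂ] B) (x : Λ → ℂ),
    (∀ t, ‖ρ t‖ ≤ ‖t‖) ∧ (∀ t ∈ M.Bl g, ρ t = t) ∧ (∀ n, ρ (M.z n) = M.z n) ∧
    (∀ a, a < g → ρ (M.y a) = M.y a) ∧ (∀ a, g ≤ a → ρ (M.y a) = algebraMap ℂ B (x a)) ∧
    (∀ a, ‖x a‖ ≤ 1) ∧ (∀ a ∈ L₀, g ≤ a → (a : WithTop Λ) < lam → x a ≠ 0) ∧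
    {a | g ≤ a ∧ (a : WithTop Λ) < lam ∧ ‖x a‖ < 1}.Finite ∧ ∀ k, M.ε (ρ (r k)) = 0

/-! ## cardinalities -/

/-- the index set: the initial ordinal of the continuum -/
abbrev Lam : Type := (Cardinal.continuum.{0}).ord.ToType

/-! ## the final statement for (H5) -/

open Pool.Agent.Work.MP_10b086_an in
/-- the answer to (H5) -/
def Final : Prop :=
    ∃ (A : Type) (_ : NonUnitalNormedCommRing A) (_ : NormedSpace ℂ A) (_ : IsScalarTower ℂ A A)
      (_ : SMulCommClass ℂ A A) (_ : CompleteSpace A) (_ : StarRing A) (_ : StarModule ℂ A)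
      (_ : ContinuousStar A),
      (IsClosed (Sq A : Set A) ∧ FiniteDimensional ℂ (A ⧸ Sq A)) ∧
      ∃ f : A →ₗ[ℂ] ℂ, IsPositive f ∧ ¬ Continuous f

end

end Pool.Agent.H5
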