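import Pool.Agent.Work.MP_10b086_an.H5.StmtsD
import Mathlib.Analysis.Normed.Lp.ProdLp

/-!
# G1: from `N` to the answer (helper19)
-/

open Topology Filter Set
open scoped ENNReal ComplexConjugate

set_option autoImplicit false
set_option linter.unusedSectionVars false

namespace Pool.Agent.H5

open Pool.Agent.Work.MP_10b086_an

noncomputable section

/-- the algebra `N × ℂ × N` with the norm of `ℓ¹` -/
def G1A (N : Type) (_ : N) : Type := WithLp 1 (N × WithLp 1 (ℂ × N))

section

variable {N : Type} [NonUnitalNormedCommRing N] [NormedSpace ℂ N] {m : N}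

instance G1_nacg : NormedAddCommGroup (G1A N m) :=
  inferInstanceAs (NormedAddCommGroup (WithLp 1 (N × WithLp 1 (ℂ × N))))

instance G1_ns : NormedSpace ℂ (G1A N m) :=
  inferInstanceAs (NormedSpace ℂ (WithLp 1 (N × WithLp 1 (ℂ × N))))

/-- the constructor -/
def G1mk (m : N) (n : N) (l : ℂ) (p : N) : G1A N m :=
  WithLp.toLp 1 (n, (WithLp.toLp 1 (l, p) : WithLp 1 (ℂ × N)))

/-- first coordinate -/
def G1A.n (a : G1A N m) : N := WithLp.fst (p := 1) (α := N) (β := WithLp 1 (ℂ × N)) a
/-- second coordinate -/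
def G1A.l (a : G1A N m) : ℂ :=
  WithLp.fst (WithLp.snd (p := 1) (α := N) (β := WithLp 1 (ℂ × N)) a)
/-- third coordinate -/
def G1A.p (a : G1A N m) : N :=
  WithLp.snd (WithLp.snd (p := 1) (α := N) (β := WithLp 1 (ℂ × N)) a)

@[simp] theorem G1mk_n (n : N) (l : ℂ) (p : N) : (G1mk m n l p).n = n := rfl
@[simp] theorem G1mk_l (n : N) (l : ℂ) (p : N) : (G1mk m n l p).l = l := rfl
@[simp] theorem G1mk_p (n : N) (l : ℂ) (p : N) : (G1mk m n l p).p = p := rfl
@[simp] theorem G1_add_n (a b : G1A N m) : (a + b).n = a.n + b.n := rfl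
@[simp] theorem G1_add_l (a b : G1A N m) : (a + b).l = a.l + b.l := rfl
@[simp] theorem G1_add_p (a b : G1A N m) : (a + b).p = a.p + b.p := rfl
@[simp] theorem G1_zero_n : (0 : G1A N m).n = 0 := rfl
@[simp] theorem G1_zero_l : (0 : G1A N m).l = 0 := rfl
@[simp] theorem G1_zero_p : (0 : G1A N m).p = 0 := rfl
@[simp] theorem G1_smul_n (c : ℂ) (b : G1A N m) : (c • b).n = c • b.n := rfl
@[simp] theorem G1_smul_l (c : ℂ) (b : G1A N m) : (c • b).l = c * b.l := rfl
@[simp] theorem G1_smul_p (c : ℂ) (b : G1A N m) : (c • b).p = c • b.p := rfl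

theorem G1_ext {a b : G1A N m} (h1 : a.n = b.n) (h2 : a.l = b.l) (h3 : a.p = b.p) : a = b := by
  have : ∀ c : G1A N m, c = G1mk m c.n c.l c.p := fun _ => rfl
  rw [this a, this b, h1, h2, h3]

theorem G1_norm (a : G1A N m) : ‖a‖ = ‖a.n‖ + (‖a.l‖ + ‖a.p‖) := by
  refine (WithLp.prod_norm_eq_of_L1 (α := N) (β := WithLp 1 (ℂ × N)) a).trans ?_
  congr 1
  exact WithLp.prod_norm_eq_of_L1 _

instance G1_mul : Mul (G1A N m) := ⟨fun a b =>
  G1mk m (a.n * b.n + (a.l * b.l) • m + a.l • (b.p * m) + b.l • (a.p * m) + a.p * b.p * m) 0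
    (b.l • a.n + a.n * b.p + a.l • b.n + b.n * a.p)⟩

@[simp] theorem G1_mul_n (a b : G1A N m) : (a * b).n =
  a.n * b.n + (a.l * b.l) • m + a.l • (b.p * m) + b.l • (a.p * m) + a.p * b.p * m := rfl
@[simp] theorem G1_mul_l (a b : G1A N m) : (a * b).l = 0 := rfl
@[simp] theorem G1_mul_p (a b : G1A N m) : (a * b).p =
  b.l • a.n + a.n * b.p + a.l • b.n + b.n * a.p := rfl

theorem G1_mul_comm (a b : G1A N m) : a * b = b * a := by
  refine G1_ext ?_ rfl ?_
  · simp only [G1_mul_n]
    rw [mul_comm a.n, mul_comm a.l, mul_comm a.p b.p]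
    abel
  · simp only [G1_mul_p]
    rw [mul_comm b.n a.p]
    abel

variable [IsScalarTower ℂ N N] [SMulCommClass ℂ N N]

theorem G1_add_mul (a b c : G1A N m) : (a + b) * c = a * c + b * c := by
  refine G1_ext ?_ (by simp) ?_
  · simp only [G1_mul_n, G1_add_n, G1_add_l, G1_add_p, add_mul, add_smul, smul_add]
    abel
  · simp only [G1_mul_p, G1_add_n, G1_add_l, G1_add_p, add_mul, mul_add, add_smul, smul_add]
    abel

theorem G1_mul_assoc (a b c : G1A N m) : a * b * c = a * (b * c) := by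
  refine G1_ext ?_ (by simp) ?_
  · apply Unitization.inr_injective (R := ℂ)
    simp only [G1_mul_n, G1_mul_l, G1_mul_p, zero_mul, mul_zero, zero_smul,
      Unitization.inr_add, Unitization.inr_mul, ← Unitization.inl_mul_inr, Unitization.inl_mul,
      Unitization.inr_zero]
    ring
  · apply Unitization.inr_injective (R := ℂ)
    simp only [G1_mul_n, G1_mul_l, G1_mul_p, zero_smul,
      Unitization.inr_add, Unitization.inr_mul, ← Unitization.inl_mul_inr, Unitization.inl_mul,
      Unitization.inr_zero]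
    ring

theorem G1_smul_mul (r : ℂ) (a b : G1A N m) : (r • a) * b = r • (a * b) := by
  refine G1_ext ?_ (by simp) ?_
  · simp only [G1_mul_n, G1_smul_n, G1_smul_l, G1_smul_p, smul_add, smul_mul_assoc, mul_smul,
      smul_comm b.l r]
  · simp only [G1_mul_p, G1_smul_n, G1_smul_l, G1_smul_p, smul_add, smul_mul_assoc, mul_smul,
      smul_comm b.l r, mul_smul_comm]

theorem G1_norm_mul [Fact (‖m‖ ≤ 1)] (a b : G1A N m) : ‖a * b‖ ≤ ‖a‖ * ‖b‖ := by
  have hm : ‖m‖ ≤ 1 := Fact.out
  have e1 : ‖a.n * b.n + (a.l * b.l) • m + a.l • (b.p * m) + b.l • (a.p * m) + a.p * b.p * m‖ ≤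
      ‖a.n‖ * ‖b.n‖ + ‖a.l‖ * ‖b.l‖ + ‖a.l‖ * ‖b.p‖ + ‖b.l‖ * ‖a.p‖ + ‖a.p‖ * ‖b.p‖ := by
    refine (norm_add_le _ _).trans (add_le_add ((norm_add_le _ _).trans (add_le_add
      ((norm_add_le _ _).trans (add_le_add ((norm_add_le _ _).trans (add_le_add ?_ ?_)) ?_))
      ?_)) ?_)
    · exact norm_mul_le _ _
    · rw [norm_smul, norm_mul]
      exact mul_le_of_le_one_right (by positivity) hm
    · rw [norm_smul]
      exact mul_le_mul_of_nonneg_left ((norm_mul_le _ _).trans
        (mul_le_of_le_one_right (norm_nonneg _) hm)) (norm_nonneg _)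
    · rw [norm_smul]
      exact mul_le_mul_of_nonneg_left ((norm_mul_le _ _).trans
        (mul_le_of_le_one_right (norm_nonneg _) hm)) (norm_nonneg _)
    · exact (norm_mul_le _ _).trans ((mul_le_of_le_one_right (norm_nonneg _) hm).trans
        (norm_mul_le _ _))
  have e2 : ‖b.l • a.n + a.n * b.p + a.l • b.n + b.n * a.p‖ ≤
      ‖b.l‖ * ‖a.n‖ + ‖a.n‖ * ‖b.p‖ + ‖a.l‖ * ‖b.n‖ + ‖b.n‖ * ‖a.p‖ := by
    refine (norm_add_le _ _).trans (add_le_add ((norm_add_le _ _).trans (add_le_add
      ((norm_add_le _ _).trans (add_le_add ?_ ?_)) ?_)) ?_)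
    · rw [norm_smul]
    · exact norm_mul_le _ _
    · rw [norm_smul]
    · exact norm_mul_le _ _
  rw [G1_norm, G1_norm, G1_norm, G1_mul_n, G1_mul_l, G1_mul_p, norm_zero, zero_add]
  refine (add_le_add e1 e2).trans (le_of_eq ?_)
  ring

instance G1_ring [Fact (‖m‖ ≤ 1)] : NonUnitalNormedCommRing (G1A N m) :=
  { G1_nacg (m := m), G1_mul (m := m) with
    left_distrib := fun a b c => by
      rw [G1_mul_comm a, G1_add_mul, G1_mul_comm b, G1_mul_comm c]
    right_distrib := G1_add_mul
    zero_mul := fun a => by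
      refine G1_ext ?_ (by simp) ?_ <;> simp
    mul_zero := fun a => by
      refine G1_ext ?_ (by simp) ?_ <;> simp
    mul_assoc := G1_mul_assoc
    mul_comm := G1_mul_comm
    dist_eq := fun x y => (G1_nacg (m := m)).dist_eq x y
    norm_mul_le := G1_norm_mul }

instance G1_st [Fact (‖m‖ ≤ 1)] : IsScalarTower ℂ (G1A N m) (G1A N m) :=
  ⟨fun r a b => G1_smul_mul r a b⟩

instance G1_sc [Fact (‖m‖ ≤ 1)] : SMulCommClass ℂ (G1A N m) (G1A N m) :=
  ⟨fun r a b => by
    show r • (a * b) = a * (r • b)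
    rw [mul_comm a (r • b), mul_comm a b]
    exact (G1_smul_mul r b a).symm⟩

variable [StarRing N] [StarModule ℂ N]

/-- the involution -/
theorem G1_star_aux [Fact (‖m‖ ≤ 1)] (hs : star m = m) (a b : G1A N m) :
    G1mk m (star (a * b).n) (conj (a * b).l) (star (a * b).p) =
      G1mk m (star b.n) (conj b.l) (star b.p) * G1mk m (star a.n) (conj a.l) (star a.p) := by
  refine G1_ext ?_ (by simp) ?_
  · simp only [G1_mul_n, G1mk_n, G1mk_l, G1mk_p, star_add, star_mul, star_smul, hs]
    simp only [RCLike.star_def]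
    rw [mul_comm (conj b.l) (conj a.l), mul_comm m (star b.p), mul_comm m (star a.p), mul_comm m]
    abel
  · simp only [G1_mul_p, G1mk_n, G1mk_l, G1mk_p, star_add, star_mul, star_smul]
    simp only [RCLike.star_def]
    rw [mul_comm (star b.p) (star a.n), mul_comm (star a.p) (star b.n)]
    abel

/-- the star ring structure -/
@[reducible] def G1_star [Fact (‖m‖ ≤ 1)] (hs : star m = m) : StarRing (G1A N m) where
  star a := G1mk m (star a.n) (conj a.l) (star a.p)
  star_involutive a := G1_ext (by simp) (by simp) (by simp)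
  star_mul a b := G1_star_aux hs a b
  star_add a b := G1_ext (by simp) (by simp) (by simp)

/-- the second coordinate -/
def G1chi (m : N) : G1A N m →ₗ[ℂ] ℂ where
  toFun a := a.l
  map_add' _ _ := rfl
  map_smul' _ _ := rfl

/-- the first coordinate -/
def G1fst (m : N) : G1A N m →ₗ[ℂ] N where
  toFun a := a.n
  map_add' _ _ := rfl
  map_smul' _ _ := rfl

/-- the third coordinate -/
def G1thd (m : N) : G1A N m →ₗ[ℂ] N where
  toFun a := a.p
  map_add' _ _ := rfl
  map_smul' _ _ := rfl

/-- the inclusion -/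
def G1inc (m : N) : N →ₗ[ℂ] G1A N m where
  toFun n := G1mk m n 0 0
  map_add' a b := G1_ext (by simp) (by simp) (by simp)
  map_smul' c b := G1_ext (by simp) (by simp) (by simp)

/-- the second inclusion -/
def G1inc2 (m : N) : N →ₗ[ℂ] G1A N m where
  toFun n := G1mk m 0 0 n
  map_add' a b := G1_ext (by simp) (by simp) (by simp)
  map_smul' c b := G1_ext (by simp) (by simp) (by simp)

theorem G1_Sq [Fact (‖m‖ ≤ 1)] (hN : ∀ n : N, ∃ c : ℂ, n - c • m ∈ Sq N) :
    Sq (G1A N m) = LinearMap.ker (G1chi m) := by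
  apply le_antisymm
  · refine Submodule.span_le.2 ?_
    rintro _ ⟨a, b, rfl⟩
    exact G1_mul_l a b
  · intro a ha
    have hl : a.l = 0 := ha
    -- (n, 0, 0) for n in the square
    have h1 : Sq N ≤ (Sq (G1A N m)).comap (G1inc m) := by
      refine Submodule.span_le.2 ?_
      rintro _ ⟨x, y, rfl⟩
      have : G1inc m (x * y) = G1inc m x * G1inc m y := by
        refine G1_ext ?_ rfl ?_
        · simp [G1inc]
        · simp [G1inc]
      show G1inc m (x * y) ∈ Sq (G1A N m)
      rw [this]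
      exact mul_mem_Sq _ _
    obtain ⟨c, hc⟩ := hN a.n
    have h2 : G1inc m (a.n - c • m) ∈ Sq (G1A N m) := h1 hc
    have h3 : G1inc m m ∈ Sq (G1A N m) := by
      have : G1inc m m = G1mk m 0 1 0 * G1mk m 0 1 0 := by
        refine G1_ext ?_ rfl ?_
        · simp [G1inc]
        · simp [G1inc]
      rw [this]
      exact mul_mem_Sq _ _
    have h4 : G1mk m 0 0 a.p ∈ Sq (G1A N m) := by
      have : G1mk m 0 0 a.p = G1mk m a.p 0 0 * G1mk m 0 1 0 := by
        refine G1_ext ?_ rfl ?_
        · simp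
        · simp
      rw [this]
      exact mul_mem_Sq _ _
    have h5 : a = G1inc m (a.n - c • m) + c • G1inc m m + G1mk m 0 0 a.p := by
      refine G1_ext ?_ ?_ ?_
      · simp [G1inc]
      · simp [G1inc, hl]
      · simp [G1inc]
    rw [h5]
    exact add_mem (add_mem h2 (Submodule.smul_mem _ _ h3)) h4

theorem G1_main [CompleteSpace N] [ContinuousStar N] (m : N) (hm : ‖m‖ ≤ 1)
    (hs : star m = m) (hm1 : m ∉ Sq N) (hN : ∀ n : N, ∃ c : ℂ, n - c • m ∈ Sq N)
    (hcl : m ∈ closure ((Sq N : Submodule ℂ N) : Set N)) : Final := by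
  have : Fact (‖m‖ ≤ 1) := ⟨hm⟩
  let _ := G1_star hs
  have hc1 : Continuous (G1chi m) := by
    refine AddMonoidHomClass.continuous_of_bound (G1chi m) 1 fun a => ?_
    rw [one_mul, G1_norm]
    show ‖a.l‖ ≤ _
    linarith [norm_nonneg a.n, norm_nonneg a.p]
  have hc2 : Continuous (G1fst m) := by
    refine AddMonoidHomClass.continuous_of_bound (G1fst m) 1 fun a => ?_
    rw [one_mul, G1_norm]
    show ‖a.n‖ ≤ _
    linarith [norm_nonneg a.l, norm_nonneg a.p]
  have hc3 : Continuous (G1inc m) := by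
    refine AddMonoidHomClass.continuous_of_bound (G1inc m) 1 fun a => ?_
    rw [one_mul, G1_norm]
    simp [G1inc]
  have hcomp : CompleteSpace (G1A N m) :=
    inferInstanceAs (CompleteSpace (WithLp 1 (N × WithLp 1 (ℂ × N))))
  have hsm : StarModule ℂ (G1A N m) := ⟨fun r a => by
    refine G1_ext ?_ ?_ ?_
    · show star (r • a.n) = star r • star a.n
      exact star_smul _ _
    · show conj (r * a.l) = star r * conj a.l
      rw [map_mul]; rfl
    · show star (r • a.p) = star r • star a.p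
      exact star_smul _ _⟩
  have hcs : ContinuousStar (G1A N m) := ⟨by
    have hc4 : Continuous (G1inc2 m) := by
      refine AddMonoidHomClass.continuous_of_bound (G1inc2 m) 1 fun a => ?_
      rw [one_mul, G1_norm]
      simp [G1inc2]
    have hc5 : Continuous fun a : G1A N m => a.p := by
      have h : Continuous (G1thd m) := by
        refine AddMonoidHomClass.continuous_of_bound (G1thd m) 1 fun a => ?_
        rw [one_mul, G1_norm]
        show ‖a.p‖ ≤ _
        linarith [norm_nonneg a.n, norm_nonneg a.l]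
      exact h
    have h6 : (fun a : G1A N m => star a) = fun a => G1inc m (star (G1fst m a)) +
        conj (G1chi m a) • G1mk m 0 1 0 + G1inc2 m (star a.p) := by
      funext a
      refine G1_ext ?_ ?_ ?_
      · have e : (G1fst m) a = a.n := rfl
        show star a.n = _
        simp [G1inc, G1inc2, e]
      · have e : (G1chi m) a = a.l := rfl
        show conj a.l = _
        simp [G1inc, G1inc2, e]
      · show star a.p = _
        simp [G1inc, G1inc2]
    show Continuous fun a : G1A N m => star a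
    rw [h6]
    exact ((hc3.comp (continuous_star.comp hc2)).add
      ((Complex.continuous_conj.comp hc1).smul continuous_const)).add
      (hc4.comp (continuous_star.comp hc5))⟩
  obtain ⟨φ, hφ, hker⟩ := Submodule.exists_le_ker_of_notMem hm1
  set ψ : N →ₗ[ℂ] ℂ := (φ m)⁻¹ • φ with hψ
  have hψm : ψ m = 1 := by
    rw [hψ, LinearMap.smul_apply, smul_eq_mul, inv_mul_cancel₀ hφ]
  have hψS : ∀ x ∈ Sq N, ψ x = 0 := fun x hx => by
    have : φ x = 0 := hker hx
    rw [hψ, LinearMap.smul_apply, this, smul_zero]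
  have hψmul : ∀ x y, ψ (x * y) = 0 := fun x y => hψS _ (mul_mem_Sq x y)
  refine ⟨G1A N m, inferInstance, inferInstance, inferInstance, inferInstance, hcomp,
    inferInstance, hsm, hcs, ⟨?_, ?_⟩, ψ ∘ₗ G1fst m, ?_, ?_⟩
  · have : (Sq (G1A N m) : Set (G1A N m)) = {a | G1chi m a = 0} := by
      rw [G1_Sq hN]; rfl
    rw [this]
    exact isClosed_eq hc1 continuous_const
  · rw [G1_Sq hN]
    exact (G1chi m).quotKerEquivRange.symm.finiteDimensional
  · intro a
    have h1 : (ψ ∘ₗ G1fst m) (star a * a) = conj a.l * a.l := by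
      show ψ ((star a * a).n) = _
      have hn : (star a).n = star a.n := rfl
      have hl : (star a).l = conj a.l := rfl
      have hp : (star a).p = star a.p := rfl
      rw [G1_mul_n, hn, hl, hp]
      simp only [map_add, map_smul, hψmul, hψm, smul_eq_mul, mul_one, mul_zero, zero_add,
        add_zero]
    rw [h1, ← Complex.normSq_eq_conj_mul_self]
    exact ⟨by rw [Complex.ofReal_re]; exact Complex.normSq_nonneg _, Complex.ofReal_im _⟩
  · intro hcont
    have h1 : Continuous ψ := by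
      have : (ψ : N → ℂ) = (ψ ∘ₗ G1fst m) ∘ (G1inc m) := by
        funext x; rfl
      rw [this]
      exact hcont.comp hc3
    have h2 : closure ((Sq N : Submodule ℂ N) : Set N) ⊆ {x | ψ x = 0} :=
      closure_minimal hψS (isClosed_eq h1 continuous_const)
    have h3 : ψ m = 0 := h2 hcl
    rw [hψm] at h3
    exact one_ne_zero h3

end

theorem prf_G1 : S_G1 := by
  intro N _ _ _ _ _ _ _ _ m hs hm1 hN hcl
  set t : ℝ := (‖m‖ + 1)⁻¹ with ht
  have ht0 : 0 < t := by positivity
  have htc : (t : ℂ) ≠ 0 := by exact_mod_cast ht0.ne'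
  have hnorm : ‖((t : ℂ) • m : N)‖ ≤ 1 := by
    rw [norm_smul, Complex.norm_real, Real.norm_of_nonneg ht0.le, ht]
    rw [inv_mul_le_iff₀ (by positivity)]
    linarith [norm_nonneg m]
  refine G1_main ((t : ℂ) • m) hnorm ?_ ?_ ?_ ?_
  · rw [star_smul, hs]
    congr 1
    exact Complex.conj_ofReal t
  · intro h
    apply hm1
    have := Submodule.smul_mem (Sq N) (t : ℂ)⁻¹ h
    rwa [smul_smul, inv_mul_cancel₀ htc, one_smul] at this
  · intro n
    obtain ⟨c, hc⟩ := hN n
    refine ⟨c * (t : ℂ)⁻¹, ?_⟩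
    rwa [smul_smul, mul_assoc, inv_mul_cancel₀ htc, mul_one]
  · have h1 : m ∈ (Sq N).topologicalClosure := hcl
    exact Submodule.smul_mem _ (t : ℂ) h1

end

end Pool.Agent.H5
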