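import Pool.Agent.Work.MP_10b086_an.Bd.B04
import Pool.Agent.Work.MP_10b086_an.Bd.B05
import Pool.Agent.Work.MP_10b086_an.Bd.B06
import Pool.Agent.Work.MP_10b086_an.Bd.B07
import Pool.Agent.Work.MP_10b086_an.H5.I_G1

/-!
# The answer to (H5)
-/

set_option autoImplicit false

namespace Pool.Agent.H5

theorem full_D3 : S_D3 := prf_D3 prf_D0 (prf_D2 prf_D1)

theorem full_D4 : S_D4 := prf_D4 full_D3

theorem full_E4 : S_E4 := prf_E4 prf_E0 prf_E3

theorem full_E5 : S_E5 := prf_E5 prf_E1 (prf_E2 prf_E0) full_E4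

theorem full_H3 : S_H3 := prf_H3 prf_H2

theorem full_X1 : S_X1 := prf_X1 full_F1 full_RN full_D3 full_D4

theorem full_G3 : S_G3 := prf_G3 (prf_G2 prf_G1) prf_E6

theorem final : Final :=
  assembly (prf_H4 prf_H1 full_H3) full_D3 prf_D6 (prf_D7 full_D3) (prf_D5 full_D3)
    (prf_H5 prf_H1 prf_H2 full_H3) full_X1 full_E5 full_G3

end Pool.Agent.H5
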