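import Mathlib

/-!
# The commutative Banach algebra of `ℓ¹` power series in a set of variables
-/

open Topology Filter Set Finset
open scoped ENNReal

set_option autoImplicit false
set_option linter.unusedSectionVars false

namespace Pool.Agent.H5

noncomputable section

/-- `ℓ¹` power series in the variables `V` -/
def L1 (V : Type) : Type := lp (fun _ : V →₀ ℕ => ℂ) 1

variable {V : Type}

instance : NormedAddCommGroup (L1 V) :=
  inferInstanceAs (NormedAddCommGroup (lp (fun _ : V →₀ ℕ => ℂ) 1))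
instance : NormedSpace ℂ (L1 V) :=
  inferInstanceAs (NormedSpace ℂ (lp (fun _ : V →₀ ℕ => ℂ) 1))
instance : CompleteSpace (L1 V) :=
  inferInstanceAs (CompleteSpace (lp (fun _ : V →₀ ℕ => ℂ) 1))

/-- the coefficients -/
def L1.cf (f : L1 V) : (V →₀ ℕ) → ℂ := f.1

theorem L1.ext_cf {f g : L1 V} (h : ∀ μ, f.cf μ = g.cf μ) : f = g :=
  Subtype.ext (funext h)

theorem L1.summable (f : L1 V) : Summable fun μ => ‖f.cf μ‖ := by
  have := f.2.summable (by norm_num)
  simp only [ENNReal.toReal_one, Real.rpow_one] at this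
  exact this

theorem L1.norm_def (f : L1 V) : ‖f‖ = ∑' μ, ‖f.cf μ‖ := by
  have := lp.norm_eq_tsum_rpow (p := 1) (by norm_num) (show lp (fun _ : V →₀ ℕ => ℂ) 1 from f)
  simp only [ENNReal.toReal_one, Real.rpow_one, div_one] at this
  exact this

/-- constructor -/
def L1.mk' (c : (V →₀ ℕ) → ℂ) (h : Summable fun μ => ‖c μ‖) : L1 V :=
  ⟨c, by
    show Memℓp c 1
    rw [memℓp_gen_iff (by norm_num)]
    simpa using h⟩

@[simp] theorem L1.cf_mk' (c : (V →₀ ℕ) → ℂ) (h : Summable fun μ => ‖c μ‖) (μ : V →₀ ℕ) :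
    (L1.mk' c h).cf μ = c μ := rfl

@[simp] theorem L1.cf_zero (μ : V →₀ ℕ) : (0 : L1 V).cf μ = 0 := rfl
@[simp] theorem L1.cf_add (f g : L1 V) (μ : V →₀ ℕ) : (f + g).cf μ = f.cf μ + g.cf μ := rfl
@[simp] theorem L1.cf_neg (f : L1 V) (μ : V →₀ ℕ) : (-f).cf μ = -f.cf μ := rfl
@[simp] theorem L1.cf_sub (f g : L1 V) (μ : V →₀ ℕ) : (f - g).cf μ = f.cf μ - g.cf μ := rfl
@[simp] theorem L1.cf_smul (c : ℂ) (f : L1 V) (μ : V →₀ ℕ) : (c • f).cf μ = c * f.cf μ := rfl

theorem L1.norm_cf_le (f : L1 V) (μ : V →₀ ℕ) : ‖f.cf μ‖ ≤ ‖f‖ := by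
  rw [L1.norm_def]
  exact f.summable.le_tsum μ (fun _ _ => norm_nonneg _)

/-- the underlying formal power series -/
def L1.ps (f : L1 V) : MvPowerSeries V ℂ := f.cf

theorem L1.ps_inj : Function.Injective (L1.ps : L1 V → MvPowerSeries V ℂ) := by
  intro f g h
  exact L1.ext_cf (fun μ => congrFun h μ)

theorem L1.coeff_ps (f : L1 V) (μ : V →₀ ℕ) : MvPowerSeries.coeff μ f.ps = f.cf μ := rfl

open Classical in
theorem L1.conv_norm (f g : L1 V) (μ : V →₀ ℕ) :
    ‖∑ p ∈ antidiagonal μ, f.cf p.1 * g.cf p.2‖ ≤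
      ∑ p ∈ antidiagonal μ, ‖f.cf p.1‖ * ‖g.cf p.2‖ :=
  (norm_sum_le _ _).trans (Finset.sum_le_sum fun p _ => by rw [norm_mul])

open Classical in
theorem L1.conv_summable (f g : L1 V) :
    Summable fun μ => ∑ p ∈ antidiagonal μ, ‖f.cf p.1‖ * ‖g.cf p.2‖ := by
  have h : Summable fun x : (V →₀ ℕ) × (V →₀ ℕ) => ‖f.cf x.1‖ * ‖g.cf x.2‖ :=
    Summable.mul_of_nonneg (f := fun μ => ‖f.cf μ‖) (g := fun μ => ‖g.cf μ‖) f.summable
      g.summable (fun μ => norm_nonneg _) (fun μ => norm_nonneg _)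
  exact summable_sum_mul_antidiagonal_of_summable_mul (f := fun μ => ‖f.cf μ‖)
    (g := fun μ => ‖g.cf μ‖) h

open Classical in
instance : Mul (L1 V) := ⟨fun f g =>
  L1.mk' (fun μ => ∑ p ∈ antidiagonal μ, f.cf p.1 * g.cf p.2)
    (Summable.of_nonneg_of_le (fun _ => norm_nonneg _) (L1.conv_norm f g) (L1.conv_summable f g))⟩

open Classical in
theorem L1.cf_mul (f g : L1 V) (μ : V →₀ ℕ) :
    (f * g).cf μ = ∑ p ∈ antidiagonal μ, f.cf p.1 * g.cf p.2 := rfl

/-- a constant multiple of a monomial -/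
def L1.mon (μ : V →₀ ℕ) (c : ℂ) : L1 V :=
  L1.mk' (fun ν => (MvPowerSeries.monomial μ c : MvPowerSeries V ℂ) ν) (by
    classical
    refine summable_of_ne_finset_zero (s := {μ}) ?_
    intro ν hν
    have hne : ν ≠ μ := fun h => hν (by rw [h]; exact Finset.mem_singleton_self μ)
    have : MvPowerSeries.coeff ν (MvPowerSeries.monomial μ c : MvPowerSeries V ℂ) = 0 := by
      rw [MvPowerSeries.coeff_monomial, if_neg hne]
    show ‖MvPowerSeries.coeff ν (MvPowerSeries.monomial μ c : MvPowerSeries V ℂ)‖ = 0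
    rw [this, norm_zero])

theorem L1.ps_mon (μ : V →₀ ℕ) (c : ℂ) : (L1.mon μ c).ps = MvPowerSeries.monomial μ c := rfl

instance : One (L1 V) := ⟨L1.mon 0 1⟩
instance : NatCast (L1 V) := ⟨fun n => L1.mon 0 n⟩
instance : IntCast (L1 V) := ⟨fun n => L1.mon 0 n⟩
instance : Pow (L1 V) ℕ := ⟨fun f n => npowRec n f⟩

theorem L1.ps_one : (1 : L1 V).ps = 1 := by
  show (L1.mon 0 1 : L1 V).ps = 1
  rw [L1.ps_mon]; rfl

theorem L1.ps_mul (f g : L1 V) : (f * g).ps = f.ps * g.ps := by
  classical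
  ext μ
  rw [MvPowerSeries.coeff_mul]
  rfl

theorem L1.ps_pow (f : L1 V) (n : ℕ) : (f ^ n).ps = f.ps ^ n := by
  induction n with
  | zero => rw [pow_zero]; exact L1.ps_one
  | succ n ih =>
    rw [pow_succ, ← ih, ← L1.ps_mul]
    rfl

instance L1.instCommRing : CommRing (L1 V) :=
  Function.Injective.commRing L1.ps L1.ps_inj rfl L1.ps_one (fun _ _ => rfl) L1.ps_mul
    (fun _ => rfl) (fun _ _ => rfl)
    (fun n x => by
      ext μ
      show ((n • x : L1 V) : L1 V).cf μ = (n • x.ps : MvPowerSeries V ℂ) μ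
      rfl)
    (fun n x => by
      ext μ
      show ((n • x : L1 V) : L1 V).cf μ = (n • x.ps : MvPowerSeries V ℂ) μ
      rfl)
    L1.ps_pow
    (fun n => by
      show (L1.mon 0 (n : ℂ) : L1 V).ps = n
      rw [L1.ps_mon]
      exact (map_natCast (MvPowerSeries.C : ℂ →+* MvPowerSeries V ℂ) n))
    (fun n => by
      show (L1.mon 0 (n : ℂ) : L1 V).ps = n
      rw [L1.ps_mon]
      exact (map_intCast (MvPowerSeries.C : ℂ →+* MvPowerSeries V ℂ) n))

theorem L1.norm_mul_le' (f g : L1 V) : ‖f * g‖ ≤ ‖f‖ * ‖g‖ := by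
  classical
  have h : Summable fun x : (V →₀ ℕ) × (V →₀ ℕ) => ‖f.cf x.1‖ * ‖g.cf x.2‖ :=
    Summable.mul_of_nonneg (f := fun μ => ‖f.cf μ‖) (g := fun μ => ‖g.cf μ‖) f.summable
      g.summable (fun μ => norm_nonneg _) (fun μ => norm_nonneg _)
  have h2 : ‖f‖ * ‖g‖ = ∑' μ, ∑ p ∈ antidiagonal μ, ‖f.cf p.1‖ * ‖g.cf p.2‖ := by
    rw [L1.norm_def, L1.norm_def]
    exact f.summable.tsum_mul_tsum_eq_tsum_sum_antidiagonal g.summable h
  rw [h2, L1.norm_def]
  exact Summable.tsum_le_tsum (fun μ => L1.conv_norm f g μ) (f * g).summable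
    (L1.conv_summable f g)

instance L1.instNormedCommRing : NormedCommRing (L1 V) :=
  { L1.instCommRing, (inferInstance : NormedAddCommGroup (L1 V)) with
    norm_mul_le := L1.norm_mul_le' }

theorem L1.norm_mon (μ : V →₀ ℕ) (c : ℂ) : ‖L1.mon μ c‖ = ‖c‖ := by
  classical
  rw [L1.norm_def, tsum_eq_single μ]
  · show ‖MvPowerSeries.coeff μ (MvPowerSeries.monomial μ c : MvPowerSeries V ℂ)‖ = ‖c‖
    rw [MvPowerSeries.coeff_monomial_same]
  · intro ν hne
    show ‖MvPowerSeries.coeff ν (MvPowerSeries.monomial μ c : MvPowerSeries V ℂ)‖ = 0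
    rw [MvPowerSeries.coeff_monomial, if_neg hne, norm_zero]

instance : NormOneClass (L1 V) := ⟨by
  show ‖(L1.mon 0 1 : L1 V)‖ = 1
  rw [L1.norm_mon, norm_one]⟩

theorem L1.smul_mul' (c : ℂ) (f g : L1 V) : (c • f) * g = c • (f * g) := by
  classical
  refine L1.ext_cf (fun μ => ?_)
  rw [L1.cf_mul, L1.cf_smul, L1.cf_mul, Finset.mul_sum]
  exact Finset.sum_congr rfl fun p _ => by rw [L1.cf_smul, mul_assoc]

theorem L1.mul_smul' (c : ℂ) (f g : L1 V) : f * (c • g) = c • (f * g) := by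
  rw [mul_comm f, L1.smul_mul', mul_comm g]

instance L1.instAlgebra : Algebra ℂ (L1 V) := Algebra.ofModule L1.smul_mul' L1.mul_smul'

instance : NormedAlgebra ℂ (L1 V) :=
  { L1.instAlgebra with norm_smul_le := fun c f => norm_smul_le c f }

/-- the monomials multiply -/
theorem L1.mon_mul (μ ν : V →₀ ℕ) (c d : ℂ) : L1.mon μ c * L1.mon ν d = L1.mon (μ + ν) (c * d) := by
  classical
  apply L1.ps_inj
  rw [L1.ps_mul, L1.ps_mon, L1.ps_mon, L1.ps_mon, MvPowerSeries.monomial_mul_monomial]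

/-- a variable -/
def L1.X (j : V) : L1 V := L1.mon (Finsupp.single j 1) 1

theorem L1.norm_X (j : V) : ‖(L1.X j : L1 V)‖ = 1 := by rw [L1.X, L1.norm_mon, norm_one]

section lift

variable {A : Type} [NormedCommRing A] [NormedAlgebra ℂ A] [CompleteSpace A] [NormOneClass A]

/-- the value of a monomial -/
def monVal (a : V → A) (μ : V →₀ ℕ) : A := μ.prod fun j n => a j ^ n

omit [NormedAlgebra ℂ A] [CompleteSpace A] [NormOneClass A] in
theorem monVal_zero (a : V → A) : monVal a 0 = 1 := Finsupp.prod_zero_index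

omit [NormedAlgebra ℂ A] [CompleteSpace A] [NormOneClass A] in
theorem monVal_add (a : V → A) (μ ν : V →₀ ℕ) : monVal a (μ + ν) = monVal a μ * monVal a ν := by
  classical
  exact Finsupp.prod_add_index' (fun _ => pow_zero _) (fun _ _ _ => pow_add _ _ _)

omit [NormedAlgebra ℂ A] [CompleteSpace A] [NormOneClass A] in
theorem monVal_single (a : V → A) (j : V) (n : ℕ) : monVal a (Finsupp.single j n) = a j ^ n :=
  Finsupp.prod_single_index (pow_zero _)

omit [NormedAlgebra ℂ A] [CompleteSpace A] in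
theorem norm_monVal_le {a : V → A} (ha : ∀ j, ‖a j‖ ≤ 1) (μ : V →₀ ℕ) : ‖monVal a μ‖ ≤ 1 := by
  classical
  refine (Finset.norm_prod_le _ _).trans ?_
  refine Finset.prod_le_one (fun _ _ => norm_nonneg _) (fun j _ => ?_)
  exact (norm_pow_le _ _).trans (pow_le_one₀ (norm_nonneg _) (ha j))

theorem summable_lift {a : V → A} (ha : ∀ j, ‖a j‖ ≤ 1) (f : L1 V) :
    Summable fun μ => ‖f.cf μ • monVal a μ‖ := by
  refine Summable.of_nonneg_of_le (fun _ => norm_nonneg _) (fun μ => ?_) f.summable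
  rw [norm_smul]
  exact mul_le_of_le_one_right (norm_nonneg _) (norm_monVal_le ha μ)

/-- the value of the power series `f` at the family `a` of elements of norm at most one -/
def evl (a : V → A) (f : L1 V) : A := ∑' μ, f.cf μ • monVal a μ

theorem norm_evl_le {a : V → A} (ha : ∀ j, ‖a j‖ ≤ 1) (f : L1 V) : ‖evl a f‖ ≤ ‖f‖ := by
  rw [L1.norm_def]
  refine (norm_tsum_le_tsum_norm (summable_lift ha f)).trans ?_
  refine Summable.tsum_le_tsum (fun μ => ?_) (summable_lift ha f) f.summable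
  rw [norm_smul]
  exact mul_le_of_le_one_right (norm_nonneg _) (norm_monVal_le ha μ)

theorem evl_add {a : V → A} (ha : ∀ j, ‖a j‖ ≤ 1) (f g : L1 V) :
    evl a (f + g) = evl a f + evl a g := by
  rw [evl, evl, evl, ← Summable.tsum_add (summable_lift ha f).of_norm (summable_lift ha g).of_norm]
  exact tsum_congr fun μ => by rw [L1.cf_add, add_smul]

theorem evl_smul {a : V → A} (c : ℂ) (f : L1 V) (ha : ∀ j, ‖a j‖ ≤ 1) :
    evl a (c • f) = c • evl a f := by
  rw [evl, evl, ← Summable.tsum_const_smul c (summable_lift ha f).of_norm]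
  exact tsum_congr fun μ => by rw [L1.cf_smul, mul_smul]

omit [CompleteSpace A] [NormOneClass A] in
theorem evl_mon (a : V → A) (μ : V →₀ ℕ) (c : ℂ) : evl a (L1.mon μ c) = c • monVal a μ := by
  classical
  rw [evl, tsum_eq_single μ]
  · have : (L1.mon μ c).cf μ = c := by
      show MvPowerSeries.coeff μ (MvPowerSeries.monomial μ c : MvPowerSeries V ℂ) = c
      rw [MvPowerSeries.coeff_monomial_same]
    rw [this]
  · intro ν hne
    have : (L1.mon μ c).cf ν = 0 := by
      show MvPowerSeries.coeff ν (MvPowerSeries.monomial μ c : MvPowerSeries V ℂ) = 0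
      rw [MvPowerSeries.coeff_monomial, if_neg hne]
    rw [this, zero_smul]

omit [CompleteSpace A] [NormOneClass A] in
theorem evl_X (a : V → A) (j : V) : evl a (L1.X j) = a j := by
  rw [L1.X, evl_mon, one_smul, monVal_single, pow_one]

omit [CompleteSpace A] [NormOneClass A] in
theorem evl_one (a : V → A) : evl a 1 = 1 := by
  show evl a (L1.mon 0 1) = 1
  rw [evl_mon, one_smul, monVal_zero]

theorem evl_mul {a : V → A} (ha : ∀ j, ‖a j‖ ≤ 1) (f g : L1 V) :
    evl a (f * g) = evl a f * evl a g := by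
  classical
  have hs : Summable fun x : (V →₀ ℕ) × (V →₀ ℕ) =>
      (f.cf x.1 • monVal a x.1) * (g.cf x.2 • monVal a x.2) :=
    summable_mul_of_summable_norm (f := fun μ => f.cf μ • monVal a μ)
      (g := fun μ => g.cf μ • monVal a μ) (summable_lift ha f) (summable_lift ha g)
  rw [evl, evl, evl, (summable_lift ha f).of_norm.tsum_mul_tsum_eq_tsum_sum_antidiagonal
    (summable_lift ha g).of_norm hs]
  refine tsum_congr fun μ => ?_
  rw [L1.cf_mul, Finset.sum_smul]
  refine Finset.sum_congr rfl fun p hp => ?_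
  rw [smul_mul_smul_comm, ← monVal_add, Finset.HasAntidiagonal.mem_antidiagonal.mp hp]

theorem evl_zero (a : V → A) : evl a 0 = 0 := by
  rw [evl]
  have : ∀ μ : V →₀ ℕ, (0 : L1 V).cf μ • monVal a μ = 0 := fun μ => by
    rw [L1.cf_zero, zero_smul]
  simp only [this, tsum_zero]

/-- the homomorphism defined by a family of elements of norm at most one -/
def lift (a : V → A) (ha : ∀ j, ‖a j‖ ≤ 1) : L1 V →ₐ[ℂ] A where
  toFun := evl a
  map_one' := by exact evl_one a
  map_mul' := fun f g => by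
    have := evl_mul ha f g
    exact this
  map_zero' := by exact evl_zero a
  map_add' := fun f g => by exact evl_add ha f g
  commutes' := fun c => by
    rw [Algebra.algebraMap_eq_smul_one, evl_smul c 1 ha, evl_one, Algebra.algebraMap_eq_smul_one]

@[simp] theorem lift_apply (a : V → A) (ha : ∀ j, ‖a j‖ ≤ 1) (f : L1 V) :
    lift a ha f = evl a f := rfl

end lift

end

end Pool.Agent.H5
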